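import Pool.Agent.L7h31.CP.Stm

/-!
# CP, parts PTS, INE, CMP, POLY
-/

set_option autoImplicit false

namespace Pool.Agent.L7h56.CP

open scoped BigOperators Topology
open Pool.Agent.L7h31.CE (HS IsPolytope IsFace IsTiling E mk hor ver S_DST)
open Pool.Agent.L7h31.CP

variable {r : ℕ}

theorem hor_mk (x : Fin r → ℝ) (y : ℝ) (a : Fin r) : hor (mk x y) a = x a := by
  simp [hor, mk]

theorem ver_mk (x : Fin r → ℝ) (y : ℝ) : ver (mk x y) = y := by
  simp [ver, mk]

theorem cont_hor (a : Fin r) : Continuous fun z : E r => hor z a := by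
  unfold hor
  fun_prop

theorem cont_ver : Continuous fun z : E r => ver z := by
  unfold ver
  fun_prop

theorem cont_lc (i : ℤ) (a : Fin r) : Continuous fun z : E r => lc i z a := by
  unfold lc
  exact (cont_hor a).sub ((cont_ver.sub continuous_const).mul continuous_const)

theorem lc_mk (i : ℤ) (ν : Fin r → ℤ) (κ : ℝ) (x : Fin r → ℝ) (a : Fin r) :
    lc i (mk (fun a => (ν a : ℝ) + κ * (vz r i a : ℝ) + x a) ((i : ℝ) + κ) : E r) a =
      ν a + x a := by
  unfold lc
  rw [hor_mk, ver_mk]
  ring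

theorem s_PTS : S_PTS := by
  intro r i ν κ x h0 h1 hx
  refine ⟨?_, ?_, fun a => ?_⟩
  · rw [ver_mk]; linarith
  · rw [ver_mk]; linarith
  · rw [lc_mk]
    have := hx a
    constructor <;> linarith

theorem s_INE : S_INE := by
  intro r i ν
  have ho : IsOpen {z : E r | ((i : ℝ) < ver z ∧ ver z < i + 1) ∧
      ∀ a, (ν a : ℝ) < lc i z a ∧ lc i z a < ν a + 1} := by
    refine IsOpen.and ((isOpen_lt continuous_const cont_ver).and
      (isOpen_lt cont_ver continuous_const)) ?_
    simp only [Set.setOf_forall]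
    exact isOpen_iInter_of_finite fun a => (isOpen_lt continuous_const (cont_lc i a)).and
      (isOpen_lt (cont_lc i a) continuous_const)
  refine ⟨(mk (fun a => (ν a : ℝ) + (1 / 2 : ℝ) * (vz r i a : ℝ) + (fun _ => (1 / 2 : ℝ)) a)
    ((i : ℝ) + 1 / 2) : E r), mem_interior.2 ⟨_, ?_, ho, ?_⟩⟩
  · rintro z ⟨⟨h1, h2⟩, h3⟩
    exact ⟨h1.le, h2.le, fun a => ⟨(h3 a).1.le, (h3 a).2.le⟩⟩
  · refine ⟨⟨?_, ?_⟩, fun a => ?_⟩
    · rw [ver_mk]; linarith
    · rw [ver_mk]; linarith
    · rw [lc_mk]
      constructor <;> linarith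

theorem s_CMP : S_CMP := by
  intro r i ν
  have hc : IsClosed (tile i ν : Set (E r)) := by
    have : (tile i ν : Set (E r)) = {z : E r | ((i : ℝ) ≤ ver z ∧ ver z ≤ i + 1) ∧
        ∀ a, (ν a : ℝ) ≤ lc i z a ∧ lc i z a ≤ ν a + 1} := by
      ext z
      simp [tile, and_assoc]
    rw [this]
    refine IsClosed.and ((isClosed_le continuous_const cont_ver).and
      (isClosed_le cont_ver continuous_const)) ?_
    simp only [Set.setOf_forall]
    exact isClosed_iInter fun a => (isClosed_le continuous_const (cont_lc i a)).and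
      (isClosed_le (cont_lc i a) continuous_const)
  refine Metric.isCompact_of_isClosed_isBounded hc ?_
  rw [isBounded_iff_forall_norm_le]
  refine ⟨√((∑ a : Fin r, (|(ν a : ℝ)| + 1 + |(vz r i a : ℝ)|) ^ 2) + (|(i : ℝ)| + 1) ^ 2),
    fun z hz => ?_⟩
  apply Real.le_sqrt_of_sq_le
  rw [EuclideanSpace.norm_sq_eq, Fin.sum_univ_castSucc]
  obtain ⟨h1, h2, h3⟩ := hz
  refine add_le_add (Finset.sum_le_sum fun a _ => ?_) ?_
  · have e : ‖z (Fin.castSucc a)‖ ≤ |(ν a : ℝ)| + 1 + |(vz r i a : ℝ)| := by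
      have e1 : z (Fin.castSucc a) = lc i z a + (ver z - i) * (vz r i a : ℝ) := by
        unfold lc hor; ring
      rw [e1, Real.norm_eq_abs]
      refine (abs_add_le _ _).trans (add_le_add ?_ ?_)
      · have := h3 a
        rw [abs_le]
        constructor
        · have := neg_abs_le (ν a : ℝ); linarith
        · have := le_abs_self (ν a : ℝ); linarith
      · rw [abs_mul]
        have h4 : |ver z - i| ≤ 1 := by rw [abs_le]; constructor <;> linarith
        calc |ver z - i| * |(vz r i a : ℝ)| ≤ 1 * |(vz r i a : ℝ)| :=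
              mul_le_mul_of_nonneg_right h4 (abs_nonneg _)
          _ = _ := one_mul _
    exact pow_le_pow_left₀ (norm_nonneg _) e 2
  · have e : ‖z (Fin.last r)‖ ≤ |(i : ℝ)| + 1 := by
      change |ver z| ≤ _
      rw [abs_le]
      constructor
      · have := neg_abs_le (i : ℝ); linarith
      · have := le_abs_self (i : ℝ); linarith
    exact pow_le_pow_left₀ (norm_nonneg _) e 2

/-- the inequalities of the tile -/
def ineq (i : ℤ) (ν : Fin r → ℤ) : Option (Fin r) × Bool → E r → Prop
  | (some a, true), z => (ν a : ℝ) ≤ lc i z a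
  | (some a, false), z => lc i z a ≤ ν a + 1
  | (none, true), z => (i : ℝ) ≤ ver z
  | (none, false), z => ver z ≤ i + 1

theorem s_POLY (hPL : S_PL) : S_POLY := by
  intro r i ν
  refine ⟨s_CMP r i ν, s_INE r i ν, ?_⟩
  have key : ∀ k : Option (Fin r) × Bool, ∃ c : E r × E r, c.1 ≠ c.2 ∧
      ∀ z : E r, z ∈ HS c.1 c.2 ↔ ineq i ν k z := by
    rintro ⟨_ | a, b⟩
    · rcases b with _ | _
      · obtain ⟨p, q, hpq, h⟩ := hPL r (fun _ => 0) 1 (-((i : ℝ) + 1)) (Or.inl one_ne_zero)
        refine ⟨(p, q), hpq, fun z => ?_⟩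
        change dist z p ≤ dist z q ↔ ver z ≤ i + 1
        rw [(h z).1]
        simp only [zero_mul, Finset.sum_const_zero]
        constructor <;> intro h1 <;> linarith
      · obtain ⟨p, q, hpq, h⟩ := hPL r (fun _ => 0) (-1) (i : ℝ) (Or.inl (by norm_num))
        refine ⟨(p, q), hpq, fun z => ?_⟩
        change dist z p ≤ dist z q ↔ (i : ℝ) ≤ ver z
        rw [(h z).1]
        simp only [zero_mul, Finset.sum_const_zero]
        constructor <;> intro h1 <;> linarith
    · rcases b with _ | _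
      · obtain ⟨p, q, hpq, h⟩ := hPL r (fun x => if x = a then 1 else 0) (-(vz r i a : ℝ))
          ((i : ℝ) * (vz r i a : ℝ) - ν a - 1) (Or.inr ⟨a, by simp⟩)
        refine ⟨(p, q), hpq, fun z => ?_⟩
        change dist z p ≤ dist z q ↔ lc i z a ≤ ν a + 1
        rw [(h z).1]
        simp only [ite_mul, one_mul, zero_mul, Finset.sum_ite_eq', Finset.mem_univ, if_true]
        unfold lc
        constructor <;> intro h1 <;> nlinarith
      · obtain ⟨p, q, hpq, h⟩ := hPL r (fun x => if x = a then -1 else 0) (vz r i a : ℝ)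
          ((ν a : ℝ) - (i : ℝ) * (vz r i a : ℝ)) (Or.inr ⟨a, by simp⟩)
        refine ⟨(p, q), hpq, fun z => ?_⟩
        change dist z p ≤ dist z q ↔ (ν a : ℝ) ≤ lc i z a
        rw [(h z).1]
        simp only [ite_mul, neg_mul, one_mul, zero_mul, Finset.sum_ite_eq', Finset.mem_univ,
          if_true]
        unfold lc
        constructor <;> intro h1 <;> nlinarith
  choose c hc1 hc2 using key
  classical
  refine ⟨Finset.univ.image c, fun x hx => ?_, ?_⟩
  · obtain ⟨k, -, rfl⟩ := Finset.mem_image.1 hx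
    exact hc1 k
  · ext z
    simp only [Set.mem_setOf_eq, Finset.mem_image, Finset.mem_univ, true_and,
      forall_exists_index, forall_apply_eq_imp_iff]
    constructor
    · rintro ⟨h1, h2, h3⟩ k
      rw [hc2]
      rcases k with ⟨_ | a, _ | _⟩
      · exact h2
      · exact h1
      · exact (h3 a).2
      · exact (h3 a).1
    · intro h
      have h' : ∀ k, ineq i ν k z := fun k => (hc2 k z).1 (h k)
      exact ⟨h' (none, true), h' (none, false), fun a => ⟨h' (some a, true), h' (some a, false)⟩⟩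

end Pool.Agent.L7h56.CP
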